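import Pool.Agent.ASE.Stmts7
import Pool.Agent.Helper13_ASO.KCM
import Pool.Agent.Helper90_ASO.CPG

/-!
# Row HMX of squad ASE
-/

set_option autoImplicit false

noncomputable section

namespace Pool.Agent.PP.SE.H48

open Pool.Agent.Helper51_AWC Pool.Agent.Helper79_WRA Pool.Agent.PP Pool.Agent.PP.KF
open Pool.Agent.PP.K9 Pool.Agent.PP.K9.H97 Pool.Agent.PP.H75 Pool.Agent.PP.T3 Pool.Agent.PP.SO
open Pool.Agent.PP.SD

attribute [local instance] Ideal.Quotient.field

/-- row HMX -/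
theorem hmx : HmxStmt := by
  intro ℓ _
  refine ⟨fun V₀ _ _ hex c hc => ?_, fun M _ hM q => ⟨fun h => ?_, fun h => ?_⟩⟩
  · exact SO.H90.exists_hm hex c hc
  · exact SO.H13.kcm_rat hM h
  · exact SO.H13.kcm_mem hM h

end Pool.Agent.PP.SE.H48
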