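import Pool.Agent.ASE.Stmts5
import Pool.Agent.Helper62_ASO.LBS

/-!
# Row LT2 of squad ASE: the total sum for two labels is integral
-/

open scoped BigOperators

set_option autoImplicit false

noncomputable section

namespace Pool.Agent.PP.SE.H48

open Pool.Agent.Helper51_AWC Pool.Agent.Helper79_WRA Pool.Agent.PP Pool.Agent.PP.KF
open Pool.Agent.PP.K9 Pool.Agent.PP.K9.H97 Pool.Agent.PP.H75 Pool.Agent.PP.T3 Pool.Agent.PP.SO
open Pool.Agent.PP.SD

attribute [local instance] Ideal.Quotient.field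

section

variable {V₀ G : Type} [CommGroup V₀] [Finite V₀] [Group G] [Finite G]
  {M : Ideal (integralClosure ℤ ℂ)} [M.IsMaximal]

open Classical in
theorem gen2 (B : Bk (FF M) V₀ G) {n k k' : ℕ} (κ κ' : V₀) (α β : Subgroup V₀ → G → ℂ)
    (P : Fin k → Subgroup V₀) (w : Fin k → G → ℂ) (P' : Fin k' → Subgroup V₀)
    (w' : Fin k' → G → ℂ)
    (hw : ∀ (W : Subgroup V₀) (N : G → ℂ), (∀ z ∈ B.C W, ∀ g, N (z * g * z⁻¹) = N g) →
      ∑ j, (if W ≤ P j then ∑ᶠ s : G, w j s * N (B.i κ * s) else 0) =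
        (Nat.card (B.C W) : ℂ)⁻¹ * ∑ᶠ g : G, α W g * N g)
    (hw' : ∀ (W : Subgroup V₀) (N : G → ℂ), (∀ z ∈ B.C W, ∀ g, N (z * g * z⁻¹) = N g) →
      ∑ j, (if W ≤ P' j then ∑ᶠ s : G, w' j s * N (B.i κ' * s) else 0) =
        (Nat.card (B.C W) : ℂ)⁻¹ * ∑ᶠ g : G, β W g * N g)
    {Cd : G → G → G → G → SO.SS n V₀ → Prop} (hC : SO.H62.Iv B.i Cd) (L : Set (SO.SS n V₀)) :
    ∑ j, ∑ j', (if pL L ≤ P j ∧ qL L ≤ P' j' then ∑ᶠ s : G × G, w j s.1 * w' j' s.2 *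
      (SO.H62.NN Cd (B.i κ * s.1) (B.i κ' * s.2) L : ℂ) else 0) =
    ((Nat.card (B.C (pL L)) : ℂ) * Nat.card (B.C (qL L)))⁻¹ *
      ∑ᶠ x : G × G, α (pL L) x.1 * β (qL L) x.2 * (SO.H62.NN Cd x.1 x.2 L : ℂ) := by
  have := Fintype.ofFinite G
  simp only [finsum_eq_sum_of_fintype] at hw hw' ⊢
  have h1 : ∀ h, ∑ j, (if pL L ≤ P j then ∑ s : G, w j s *
      (SO.H62.NN Cd (B.i κ * s) h L : ℂ) else 0) =
      (Nat.card (B.C (pL L)) : ℂ)⁻¹ * ∑ g : G, α (pL L) g * (SO.H62.NN Cd g h L : ℂ) := by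
    intro h
    refine hw (pL L) (fun g => (SO.H62.NN Cd g h L : ℂ)) (fun z hz g => ?_)
    show (SO.H62.NN Cd (z * g * z⁻¹) h L : ℂ) = SO.H62.NN Cd g h L
    rw [SO.H62.NN_one hC g h z L (fun σ hσ => SO.H62.comm_of_mem B hz
      (Subgroup.subset_closure ⟨σ, hσ, rfl⟩))]
  have h2 := hw' (qL L) (fun h => (Nat.card (B.C (pL L)) : ℂ)⁻¹ *
    ∑ g : G, α (pL L) g * (SO.H62.NN Cd g h L : ℂ)) (fun z hz h => by
      show _ * ∑ g : G, α (pL L) g * (SO.H62.NN Cd g (z * h * z⁻¹) L : ℂ) =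
        _ * ∑ g : G, α (pL L) g * (SO.H62.NN Cd g h L : ℂ)
      congr 1
      refine Finset.sum_congr rfl fun g _ => ?_
      rw [SO.H62.NN_two hC g h z L (fun σ hσ => SO.H62.comm_of_mem B hz
        (Subgroup.subset_closure ⟨σ, hσ, rfl⟩))])
  have h3 : ∀ j' : Fin k', ∑ j, (if pL L ≤ P j ∧ qL L ≤ P' j' then
      ∑ s : G × G, w j s.1 * w' j' s.2 *
        (SO.H62.NN Cd (B.i κ * s.1) (B.i κ' * s.2) L : ℂ) else 0) =
      if qL L ≤ P' j' then ∑ t : G, w' j' t * ((Nat.card (B.C (pL L)) : ℂ)⁻¹ *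
        ∑ g : G, α (pL L) g * (SO.H62.NN Cd g (B.i κ' * t) L : ℂ)) else 0 := by
    intro j'
    by_cases hq : qL L ≤ P' j'
    · rw [if_pos hq]
      have e1 : ∀ t : G, w' j' t * ((Nat.card (B.C (pL L)) : ℂ)⁻¹ *
          ∑ g : G, α (pL L) g * (SO.H62.NN Cd g (B.i κ' * t) L : ℂ)) =
          ∑ j, w' j' t * (if pL L ≤ P j then ∑ s : G, w j s *
            (SO.H62.NN Cd (B.i κ * s) (B.i κ' * t) L : ℂ) else 0) := by
        intro t
        rw [← h1 (B.i κ' * t), Finset.mul_sum]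
      rw [Finset.sum_congr rfl fun t _ => e1 t, Finset.sum_comm]
      refine Finset.sum_congr rfl fun j _ => ?_
      by_cases hp : pL L ≤ P j
      · rw [if_pos ⟨hp, hq⟩, Fintype.sum_prod_type, Finset.sum_comm]
        refine Finset.sum_congr rfl fun t _ => ?_
        rw [if_pos hp, Finset.mul_sum]
        refine Finset.sum_congr rfl fun s _ => ?_
        ring
      · rw [if_neg fun h => hp h.1]
        symm
        refine Finset.sum_eq_zero fun t _ => ?_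
        rw [if_neg hp, mul_zero]
    · rw [if_neg hq]
      refine Finset.sum_eq_zero fun j _ => ?_
      rw [if_neg fun h => hq h.2]
  rw [Finset.sum_comm, Finset.sum_congr rfl fun j' _ => h3 j', h2, Fintype.sum_prod_type,
    Finset.sum_comm, Finset.mul_sum, Finset.mul_sum]
  refine Finset.sum_congr rfl fun h _ => ?_
  rw [Finset.mul_sum, Finset.mul_sum, Finset.mul_sum, Finset.mul_sum]
  refine Finset.sum_congr rfl fun g _ => ?_
  rw [mul_inv]
  ring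

end

/-- row LT2 -/
theorem lt2 (hmbs : MbsStmt) (hfri : FriStmt) : Lt2Stmt := by
  classical
  intro ℓ _ M _ hM V₀ G _ _ _ _ B n m κ κ' α β hα hβ F₁₃ F₁₂ hRel
  obtain ⟨k, P, w, hF, hw⟩ := hα
  obtain ⟨k', P', w', hF', hw'⟩ := hβ
  have := Fintype.ofFinite (Set (SO.SS n V₀))
  have key : T2 B m α β F₁₃ F₁₂ =
      ∑ j, ∑ j', SFr B m (P j) κ (w j) (P' j') κ' (w' j') F₁₃ F₁₂ := by
    have h13 := gen2 (n := n) B κ κ' α β P w P' w' hw hw' (SO.H62.c13_iv (n := n) m B.i)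
    have h12 := gen2 (n := n) B κ κ' α β P w P' w' hw hw' (SO.H62.c12_iv (n := n) m B.i)
    have e1 : ∀ L : Set (SO.SS n V₀), ((mob F₁₃ L : ℚ) : ℂ) * X13 B m α β L +
        ((mob F₁₂ L : ℚ) : ℂ) * X12 B m α β L =
        ∑ j, ∑ j', if pL L ≤ P j ∧ qL L ≤ P' j' then
          (((mob F₁₃ L : ℚ) : ℂ) * ∑ᶠ s : G × G, w j s.1 * w' j' s.2 *
            {z : XX (B.i κ * s.1) (B.i κ' * s.2) | ∀ t ∈ L, c13 m B.i (B.i κ * s.1) z.1.1 z.1.2.1
              z.1.2.2 t.1 t.2.1 t.2.2.1 t.2.2.2}.ncard +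
          ((mob F₁₂ L : ℚ) : ℂ) * ∑ᶠ s : G × G, w j s.1 * w' j' s.2 *
            {z : XX (B.i κ * s.1) (B.i κ' * s.2) | ∀ t ∈ L, c12 m B.i z.1.1 z.1.2.1
              z.1.2.2 t.1 t.2.1 t.2.2.1 t.2.2.2}.ncard) else 0 := by
      intro L
      have a13 : X13 B m α β L = _ := (h13 L).symm
      have a12 : X12 B m α β L = _ := (h12 L).symm
      rw [a13, a12, Finset.mul_sum, Finset.mul_sum, ← Finset.sum_add_distrib]
      refine Finset.sum_congr rfl fun j _ => ?_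
      rw [Finset.mul_sum, Finset.mul_sum, ← Finset.sum_add_distrib]
      refine Finset.sum_congr rfl fun j' _ => ?_
      by_cases h : pL L ≤ P j ∧ qL L ≤ P' j'
      · rw [if_pos h, if_pos h, if_pos h]
        rfl
      · rw [if_neg h, if_neg h, if_neg h, mul_zero, mul_zero, add_zero]
    unfold T2
    rw [finsum_eq_sum_of_fintype, Finset.sum_congr rfl fun L _ => e1 L, Finset.sum_comm]
    refine Finset.sum_congr rfl fun j _ => ?_
    rw [Finset.sum_comm]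
    refine Finset.sum_congr rfl fun j' _ => ?_
    have hm := hmbs M V₀ G B n m (P j) (P' j') κ κ' (w j) (w' j') F₁₃ F₁₂
    rw [finsum_eq_sum_of_fintype] at hm
    rw [hm]
  rw [key]
  exact Subring.sum_mem _ fun j _ => Subring.sum_mem _ fun j' _ =>
    hfri ℓ M hM V₀ G B n m (P j) (P' j') κ κ' (w j) (w' j') (hF j) (hF' j') F₁₃ F₁₂ hRel

end Pool.Agent.PP.SE.H48
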